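import Mathlib
import Pool.Agent.H99.Rob0
import Pool.Agent.H99.Rob5

set_option autoImplicit false

open H99.Rob

theorem Pool.Agent.Results.MP_c1ff29_an.Pyramid.result :
    ∃ Ω : Set (EuclideanSpace ℝ (Fin 3)), IsOpen Ω ∧ Convex ℝ Ω ∧ Bornology.IsBounded Ω ∧
      Ω.Nonempty ∧ ∀ α : ℝ, 0 < α → ∀ u : EuclideanSpace ℝ (Fin 3) → ℝ, RobinEig Ω α u →
        ¬ ConcaveOn ℝ Ω fun x => Real.log (u x) := by
  refine ⟨Om, Om_open, Om_cvx, Om_bd, ⟨_, ax one_half_pos one_half_lt_one⟩, fun α α0 u h cc => ?_⟩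
  obtain ⟨lam, G, ν, c⟩ := mkCtx Om_open Om_bd h cc
  exact main c α0
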